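import Pool.Agent.H88.MCR.Stmts

/-!
# Row CGD of the board `mcr`: the cloned diagram is good
-/

set_option autoImplicit false

namespace Pool.MCR

theorem cgd_thm (h1 : OLD_S) (h2 : CLB_S) (h3 : CNN_S) (h4 : CNS_S) (h5 : CNO_S) (h6 : CN2_S)
    (h7 : CGP_S) (h8 : CGJ_S) : CGD_S := by
  intro L _ n D w r hD hw hr
  obtain ⟨o1, o2, o3⟩ := h1 L
  obtain ⟨-, b2, b3, b4⟩ := h2 L n D w r hw
  have c1 := h3 L n D w r hD hw hr
  have c2 := h4 L n D w r hD hw hr
  have c3 := h5 L n D w r hD hw hr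
  have c4 := h6 L n D w r hD hw hr
  obtain ⟨g1, g2, g3, g4⟩ := h7 L n D w r hD hw hr
  have g5 := h8 L n D w r hD hw hr
  have hlt : ∀ x, x < n + 1 → x ≠ n → x < n := fun x hx hn => by omega
  -- reversal of a new edge
  have rev : ∀ x < n, ∀ β : List (Arc (L ×ₗ ℤ)),
      (NC ((clone D n w r).A n x) β ↔ NC ((clone D n w r).A x n) β) ∧
      (NC β ((clone D n w r).A n x) ↔ NC β ((clone D n w r).A x n)) ∧
      (AM ((clone D n w r).A n x) β ↔ AM ((clone D n w r).A x n) β) ∧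
      (AM β ((clone D n w r).A n x) ↔ AM β ((clone D n w r).A x n)) := by
    intro x hx β
    obtain ⟨-, o2', -⟩ := h1 (L ×ₗ ℤ)
    obtain ⟨e1, e2, e3, e4, -, -⟩ := o2' ((clone D n w r).A n x) ((clone D n w r).A x n) β
      (b3 x hx) (b4 x hx)
    exact ⟨e1, e2, e3, e4⟩
  obtain ⟨-, -, o3'⟩ := h1 (L ×ₗ ℤ)
  refine ⟨g1, g2, g3, g5, g4, ?_, ?_, ?_, ?_⟩
  · -- `symA`
    intro x hx y hy hxy s a b hab
    by_cases hxn : x = n
    · subst hxn
      exact b3 y (hlt y hy (Ne.symm hxy)) s a b hab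
    by_cases hyn : y = n
    · subst hyn
      exact b4 x (hlt x hx hxn) s a b hab
    have hx' := hlt x hx hxn
    have hy' := hlt y hy hyn
    rw [b2 x hx' y hy', List.mem_map] at hab
    obtain ⟨⟨t, a', b'⟩, hA, hE⟩ := hab
    rw [b2 y hy' x hx', List.mem_map]
    refine ⟨(t, b', a'), hD.symA x hx' y hy' hxy t a' b' hA, ?_⟩
    simp only [l0, Prod.mk.injEq] at hE ⊢
    exact ⟨hE.1, hE.2.2, hE.2.1⟩
  · -- `adj`
    intro x hx y hy z hz hxy hxz hyz
    by_cases hxn : x = n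
    · subst hxn
      exact c1 y (hlt y hy (Ne.symm hxy)) z (hlt z hz (Ne.symm hxz)) hyz
    have hx' := hlt x hx hxn
    by_cases hyn : y = n
    · subst hyn
      exact (rev x hx' _).1.1 (c3 x hx' z (hlt z hz (Ne.symm hyz)) hxz)
    have hy' := hlt y hy hyn
    by_cases hzn : z = n
    · subst hzn
      exact (o3' _ _).1.1 ((rev x hx' _).1.1 (c3 x hx' y hy' hxy))
    have hz' := hlt z hz hzn
    rw [b2 x hx' y hy', b2 x hx' z hz']
    exact (o1 _ _).1.2 (hD.adj x hx' y hy' z hz' hxy hxz hyz)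
  · -- `self`
    intro x hx y hy hxy
    by_cases hxn : x = n
    · subst hxn
      exact c2 y (hlt y hy (Ne.symm hxy))
    have hx' := hlt x hx hxn
    by_cases hyn : y = n
    · subst hyn
      exact (rev x hx' _).1.1 ((rev x hx' _).2.1.1 (c2 x hx'))
    have hy' := hlt y hy hyn
    rw [b2 x hx' y hy']
    exact (o1 _ _).1.2 (hD.self x hx' y hy' hxy)
  · -- `two`
    intro x hx y hy z hz t ht hxy hzt hxz hxt hyz hyt
    by_cases hxn : x = n
    · subst hxn
      exact c4 y (hlt y hy (Ne.symm hxy)) z (hlt z hz (Ne.symm hxz)) t (hlt t ht (Ne.symm hxt))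
        hyz hyt hzt
    have hx' := hlt x hx hxn
    by_cases hyn : y = n
    · subst hyn
      exact (rev x hx' _).2.2.1.1 (c4 x hx' z (hlt z hz (Ne.symm hyz)) t (hlt t ht (Ne.symm hyt))
        hxz hxt hzt)
    have hy' := hlt y hy hyn
    by_cases hzn : z = n
    · subst hzn
      exact (o3' _ _).2.1.1 (c4 t (hlt t ht (Ne.symm hzt)) x hx' y hy' (Ne.symm hxt)
        (Ne.symm hyt) hxy)
    have hz' := hlt z hz hzn
    by_cases htn : t = n
    · subst htn
      exact (o3' _ _).2.1.1 ((rev z hz' _).2.2.1.1 (c4 z hz' x hx' y hy' (Ne.symm hxz)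
        (Ne.symm hyz) hxy))
    have ht' := hlt t ht htn
    rw [b2 x hx' y hy', b2 z hz' t ht']
    exact (o1 _ _).2.1.2 (hD.two x hx' y hy' z hz' t ht' hxy hzt hxz hxt hyz hyt)

end Pool.MCR
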